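import Mathlib

namespace Pool.Agent.Results.MP_094caa_co.Counter

/-- The permutations of `{0, ..., n-1}` in one-line notation, each listed once. -/
def perms (n : ℕ) : List (List ℕ) := (List.range n).permutations'

/-- The number of inversions of a word: pairs of positions `i < j` with a larger entry at `i`. -/
def inv : List ℕ → ℕ
  | [] => 0
  | a :: l => l.countP (· < a) + inv l

/-- The number of positions `i` at which the block of `σ` of length `|π|` starting at `i` is
order-isomorphic to `π`. -/
def occ (π σ : List ℕ) : ℕ :=
  (List.range (σ.length + 1 - π.length)).countP fun i =>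
    ∀ a < π.length, ∀ b < π.length,
      (σ.getD (i + a) 0 < σ.getD (i + b) 0 ↔ π.getD a 0 < π.getD b 0)

/-- The expected number of occurrences of `π` in a uniform permutation of size `n` with exactly
`m` inversions. -/
def E (n m : ℕ) (π : List ℕ) : ℚ :=
  ((((perms n).filter fun σ => inv σ = m).map (occ π)).sum : ℕ) /
    (((perms n).filter fun σ => inv σ = m).length : ℕ)

theorem result : ∃ k n : ℕ, ∃ π ∈ perms k, k + 2 ≤ n ∧ ∃ a b c : ℕ, a < b ∧ b < c ∧
    c ≤ n.choose 2 ∧ E n b π < E n a π ∧ E n b π < E n c π := by
  refine ⟨5, 7, [0, 2, 4, 3, 1], by decide +kernel, le_rfl, 5, 8, 9, by norm_num, by norm_num,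
    by decide, ?_, ?_⟩
  · decide +kernel
  · decide +kernel

end Pool.Agent.Results.MP_094caa_co.Counter
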